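import Pool.Agent.R553.Mod.Hyp
import Pool.Agent.H234RC.W12a
import Pool.Agent.TH87.RVE.Fin

/-!
# Substitutions of arbitrary graphs in a rigid and stably prime graph
-/

set_option autoImplicit false
set_option linter.unusedSectionVars false

namespace Pool.Agent.R553.Sub

open Finset Classical
open Pool.Agent.H234RC (Hypo NonIso Reconstructible NAut IsNA Rn)
open Pool.Agent.R553.Mod
open Pool.Agent.TH87.RVE (rec_of)

variable {V K : Type} [Fintype V] [Fintype K]

/-- `Q` without the vertices of `D` is prime -/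
def PrQ (Q : SimpleGraph K) (D : Finset K) : Prop :=
  ∀ S : Finset K, Disjoint S D →
    (∀ z, z ∉ S → z ∉ D → ∀ x ∈ S, ∀ y ∈ S, (Q.Adj z x ↔ Q.Adj z y)) →
    S.card ≤ 1 ∨ ∀ z, z ∈ S ∨ z ∈ D

/-- `f` is a labelling of the graph induced by `W` with quotient in `Q` -/
def Lb (F : SimpleGraph V) (W : Finset V) (f : V → K) (Q : SimpleGraph K) : Prop :=
  ∀ x ∈ W, ∀ y ∈ W, f x ≠ f y → (F.Adj x y ↔ Q.Adj (f x) (f y))

theorem pm_of_prq {F : SimpleGraph V} {W : Finset V} {f : V → K} {Q : SimpleGraph K}
    (h : Lb F W f Q) (hQ : PrQ Q (W.image f)ᶜ) (h3 : 3 ≤ (W.image f).card) : PM F W f := by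
  refine ⟨?_, ?_, ?_⟩
  · intro x hx y hy z hz hxy hzx
    rw [h z hz x hx hzx, h z hz y hy (by rw [← hxy]; exact hzx), hxy]
  · intro A hA hsat hmod
    rcases hQ (A.image f) (by
      rw [Finset.disjoint_left]
      intro a ha ha'
      rw [mem_compl] at ha'
      exact ha' (image_subset_image hA ha)) (by
      intro z hzS hzD x hx y hy
      rw [mem_compl, not_not, mem_image] at hzD
      obtain ⟨z', hz', rfl⟩ := hzD
      obtain ⟨x', hx', rfl⟩ := mem_image.mp hx
      obtain ⟨y', hy', rfl⟩ := mem_image.mp hy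
      have hzA : z' ∉ A := fun h1 => hzS (mem_image_of_mem f h1)
      have n1 : f z' ≠ f x' := fun h1 => hzS (h1 ▸ mem_image_of_mem f hx')
      have n2 : f z' ≠ f y' := fun h1 => hzS (h1 ▸ mem_image_of_mem f hy')
      rw [← h z' hz' x' (hA hx') n1, ← h z' hz' y' (hA hy') n2]
      exact hmod x' hx' y' hy' z' hz' hzA) with h1 | h1
    · left
      intro x hx y hy
      exact card_le_one.mp h1 _ (mem_image_of_mem f hx) _ (mem_image_of_mem f hy)
    · right
      apply Subset.antisymm hA
      intro w hw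
      rcases h1 (f w) with h2 | h2
      · obtain ⟨a, ha, hae⟩ := mem_image.mp h2
        exact hsat a ha w hw hae
      · rw [mem_compl] at h2
        exact absurd (mem_image_of_mem f hw) h2
  · obtain ⟨a, ha, b, hb, c, hc, hab, hac, hbc⟩ := two_lt_card.mp (show 2 < (W.image f).card by omega)
    obtain ⟨a', ha', rfl⟩ := mem_image.mp ha
    obtain ⟨b', hb', rfl⟩ := mem_image.mp hb
    obtain ⟨c', hc', rfl⟩ := mem_image.mp hc
    exact ⟨a', ha', b', hb', c', hc', hab, hac, hbc⟩

/-- two labellings of a graph with almost all labels agree -/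
theorem lb_unique {F : SimpleGraph V} {W : Finset V} {f g : V → K} {Q : SimpleGraph K}
    (hf : Lb F W f Q) (hg : Lb F W g Q) (hcf : ((W.image f)ᶜ).card ≤ 2)
    (hcg : ((W.image g)ᶜ).card ≤ 2) (hk : 5 ≤ Fintype.card K)
    (hprime : ∀ D : Finset K, D.card ≤ 2 → PrQ Q D) (hrig : ∀ a, Rn Q a) :
    ∀ x ∈ W, f x = g x := by
  have hcard : ∀ f : V → K, ((W.image f)ᶜ).card ≤ 2 → 3 ≤ (W.image f).card := by
    intro f h
    rw [card_compl] at h
    omega
  have pf := pm_of_prq hf (hprime _ hcf) (hcard f hcf)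
  have pg := pm_of_prq hg (hprime _ hcg) (hcard g hcg)
  have two : ∀ {f : V → K}, PM F W f → ∃ a ∈ W, ∃ b ∈ W, f a ≠ f b := by
    intro f h
    obtain ⟨a, ha, b, hb, _, _, hab, _⟩ := h.th
    exact ⟨a, ha, b, hb, hab⟩
  have e1 := refines pf g pg.mp (two pg)
  have e2 := refines pg f pf.mp (two pf)
  -- the bijection of the labels
  have hexr : ∀ a : {a // a ∈ W.image f}, ∃ x ∈ W, f x = a.1 := fun a => mem_image.mp a.2
  choose r hr1 hr2 using hexr
  have hinj : Function.Injective
      (fun a : {a // a ∈ W.image f} => (⟨g (r a), mem_image_of_mem g (hr1 a)⟩ :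
        {b // b ∈ W.image g})) := by
    intro a b hab
    have h1 : g (r a) = g (r b) := congrArg Subtype.val hab
    have h2 := e1 _ (hr1 a) _ (hr1 b) h1
    rw [hr2, hr2] at h2
    exact Subtype.ext h2
  have hsurj : Function.Surjective
      (fun a : {a // a ∈ W.image f} => (⟨g (r a), mem_image_of_mem g (hr1 a)⟩ :
        {b // b ∈ W.image g})) := by
    rintro ⟨b, hb⟩
    obtain ⟨x, hx, rfl⟩ := mem_image.mp hb
    refine ⟨⟨f x, mem_image_of_mem f hx⟩, ?_⟩
    apply Subtype.ext
    show g (r ⟨f x, mem_image_of_mem f hx⟩) = g x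
    apply e2 _ (hr1 _) _ hx
    rw [hr2]
  set e : {a // a ∈ W.image f} ≃ {b // b ∈ W.image g} := Equiv.ofBijective _ ⟨hinj, hsurj⟩ with he
  set φ : Equiv.Perm K := e.extendSubtype with hφ
  have hφa : ∀ x ∈ W, φ (f x) = g x := by
    intro x hx
    rw [hφ, Equiv.extendSubtype_apply_of_mem e (f x) (mem_image_of_mem f hx)]
    show g (r ⟨f x, mem_image_of_mem f hx⟩) = g x
    apply e2 _ (hr1 _) _ hx
    rw [hr2]
  intro x hx
  -- break points
  obtain ⟨b1, b2, hb, hx1, hx2⟩ : ∃ b1 b2 : K, (∀ a, a ∉ W.image f → a = b1 ∨ a = b2) ∧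
      f x ≠ b1 ∧ f x ≠ b2 := by
    have hxm : f x ∉ (W.image f)ᶜ := by
      rw [mem_compl, not_not]
      exact mem_image_of_mem f hx
    rcases Nat.lt_or_ge ((W.image f)ᶜ).card 1 with h0 | h0
    · have h1 : (W.image f)ᶜ = ∅ := card_eq_zero.mp (by omega)
      obtain ⟨c, hc⟩ : ∃ c, c ≠ f x := by
        have : Nontrivial K := Fintype.one_lt_card_iff_nontrivial.mp (by omega)
        exact exists_ne (f x)
      refine ⟨c, c, fun a ha => ?_, hc.symm, hc.symm⟩
      rw [← mem_compl, h1] at ha
      exact absurd ha (notMem_empty _)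
    · rcases Nat.lt_or_ge ((W.image f)ᶜ).card 2 with h2 | h2
      · obtain ⟨c, hc⟩ := card_eq_one.mp (show ((W.image f)ᶜ).card = 1 by omega)
        have hcx : f x ≠ c := by
          intro h
          rw [hc, mem_singleton] at hxm
          exact hxm h
        refine ⟨c, c, fun a ha => ?_, hcx, hcx⟩
        rw [← mem_compl, hc, mem_singleton] at ha
        exact Or.inl ha
      · obtain ⟨c, d, _, hc⟩ := card_eq_two.mp (show ((W.image f)ᶜ).card = 2 by omega)
        rw [hc, mem_insert, mem_singleton, not_or] at hxm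
        refine ⟨c, d, fun a ha => ?_, hxm.1, hxm.2⟩
        rw [← mem_compl, hc, mem_insert, mem_singleton] at ha
        exact ha
  have hNA : IsNA Q (φ, b1, b2) := by
    intro a b ha1 ha2 hb1 hb2
    have ha : a ∈ W.image f := by
      by_contra h
      rcases hb a h with h | h
      · exact ha1 h
      · exact ha2 h
    have hb' : b ∈ W.image f := by
      by_contra h
      rcases hb b h with h | h
      · exact hb1 h
      · exact hb2 h
    obtain ⟨y, hy, rfl⟩ := mem_image.mp ha
    obtain ⟨z, hz, rfl⟩ := mem_image.mp hb'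
    show Q.Adj (φ (f y)) (φ (f z)) ↔ Q.Adj (f y) (f z)
    by_cases hyz : f y = f z
    · rw [hyz]
      exact iff_of_false (Q.loopless.irrefl _) (Q.loopless.irrefl _)
    · have hgyz : g y ≠ g z := fun h => hyz (e1 y hy z hz h)
      rw [hφa y hy, hφa z hz, ← hf y hy z hz hyz, ← hg y hy z hz hgyz]
  have h1 := hrig (f x) (φ, b1, b2) hNA hx1 hx2
  rw [← hφa x hx]
  exact h1.symm

section

variable {G H : SimpleGraph V} {π : V → Equiv.Perm V} {Q : SimpleGraph K} {p : V → K}

/-- the deterministic theorem -/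
theorem det_iso (hH : Hypo G H π) (hp : Lb G univ p Q) (hsurj : Function.Surjective p)
    (hk : 5 ≤ Fintype.card K)
    (hprime : ∀ D : Finset K, D.card ≤ 2 → PrQ Q D) (hrig : ∀ a, Rn Q a) :
    ∃ σ : Equiv.Perm V, ∀ x y, H.Adj (σ x) (σ y) ↔ G.Adj x y := by
  have hkV : 5 ≤ Fintype.card V := hk.trans (Fintype.card_le_of_surjective p hsurj)
  -- labels of the cards of `H`
  have hLv : ∀ v, Lb H (univ.erase v) (pv π p v) Q := by
    intro v x hx y hy hxy
    have h1 := (hypo_symm_ne hH v x).mpr (mem_erase.mp hx).1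
    have h2 := (hypo_symm_ne hH v y).mpr (mem_erase.mp hy).1
    have h3 := hH.adj v _ _ h1 h2
    rw [Equiv.apply_symm_apply, Equiv.apply_symm_apply] at h3
    rw [h3]
    exact hp _ (mem_univ _) _ (mem_univ _) hxy
  have himg : ∀ u v, u ≠ v → ((((univ.erase u).erase v).image (pv π p u))ᶜ).card ≤ 2 := by
    intro u v huv
    rw [card_compl]
    have h1 : (univ : Finset K) ⊆ insert (p u) (insert (pv π p u v)
        (((univ.erase u).erase v).image (pv π p u))) := by
      intro a _
      obtain ⟨x, rfl⟩ := hsurj a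
      by_cases hxu : x = u
      · rw [hxu]; exact mem_insert_self _ _
      · apply mem_insert_of_mem
        have hpx : pv π p u (π u x) = p x := by
          show p ((π u).symm (π u x)) = p x
          rw [Equiv.symm_apply_apply]
        by_cases hxv : π u x = v
        · rw [← hxv, hpx]; exact mem_insert_self _ _
        · apply mem_insert_of_mem
          rw [← hpx]
          exact mem_image_of_mem _ (mem_erase.mpr ⟨hxv, mem_erase.mpr
            ⟨(hypo_ne hH u x).mpr hxu, mem_univ _⟩⟩)
    have h2 := card_le_card h1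
    have h3 := card_insert_le (p u) (insert (pv π p u v)
        (((univ.erase u).erase v).image (pv π p u)))
    have h4 := card_insert_le (pv π p u v) (((univ.erase u).erase v).image (pv π p u))
    rw [card_univ] at h2
    omega
  -- the labels agree
  have hag : ∀ u v x, u ≠ v → x ≠ u → x ≠ v → pv π p u x = pv π p v x := by
    intro u v x huv hxu hxv
    have h1 : Lb H ((univ.erase u).erase v) (pv π p u) Q := fun x hx y hy h =>
      hLv u x (mem_erase.mp hx).2 y (mem_erase.mp hy).2 h
    have h2 : Lb H ((univ.erase u).erase v) (pv π p v) Q := by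
      intro x hx y hy h
      rw [erase_right_comm] at hx hy
      exact hLv v x (mem_erase.mp hx).2 y (mem_erase.mp hy).2 h
    have h3 := himg v u huv.symm
    rw [erase_right_comm] at h3
    exact lb_unique h1 h2 (himg u v huv) h3 hk hprime hrig x
      (mem_erase.mpr ⟨hxv, mem_erase.mpr ⟨hxu, mem_univ _⟩⟩)
  have hother : ∀ x : V, ∃ v, v ≠ x := by
    intro x
    have : Nontrivial V := Fintype.one_lt_card_iff_nontrivial.mp (by omega)
    exact exists_ne x
  choose o ho using hother
  set q : V → K := fun x => pv π p (o x) x with hq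
  have hqv : ∀ v x, x ≠ v → pv π p v x = q x := by
    intro v x hxv
    by_cases h : v = o x
    · rw [h]
    · exact hag v (o x) x h hxv (ho x).symm
  have hqπ : ∀ v x, x ≠ v → q (π v x) = p x := by
    intro v x hxv
    rw [← hqv v (π v x) ((hypo_ne hH v x).mpr hxv)]
    show p ((π v).symm (π v x)) = p x
    rw [Equiv.symm_apply_apply]
  have havoid : ∀ x y : V, ∃ w, w ≠ x ∧ w ≠ y := by
    intro x y
    by_contra hcon
    push Not at hcon
    have h : (univ : Finset V) ⊆ {x, y} := by
      intro w _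
      rw [mem_insert, mem_singleton]
      by_cases h1 : w = x
      · exact Or.inl h1
      · exact Or.inr (hcon w h1)
    have h1 := card_le_card h
    have h2 := card_le_two (a := x) (b := y)
    rw [card_univ] at h1
    omega
  have hHq : ∀ x y, q x ≠ q y → (H.Adj x y ↔ Q.Adj (q x) (q y)) := by
    intro x y hxy
    obtain ⟨w, h1, h2⟩ := havoid x y
    rw [← hqv w x h1.symm, ← hqv w y h2.symm] at hxy ⊢
    exact hLv w x (mem_erase.mpr ⟨h1.symm, mem_univ _⟩) y (mem_erase.mpr ⟨h2.symm, mem_univ _⟩) hxy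
  -- sizes
  have hsize : ∀ v a, ((univ.filter (fun x => q x = a)).erase v).card =
      ((univ.filter (fun x => p x = a)).erase v).card := by
    intro v a
    rw [← card_map (π v).toEmbedding (s := (univ.filter (fun x => p x = a)).erase v)]
    congr 1
    ext y
    rw [mem_map, mem_erase, mem_filter]
    constructor
    · rintro ⟨h1, _, h2⟩
      have h3 := (hypo_symm_ne hH v y).mpr h1
      refine ⟨(π v).symm y, ?_, by simp⟩
      rw [mem_erase, mem_filter]
      refine ⟨h3, mem_univ _, ?_⟩
      have h4 := hqπ v _ h3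
      rw [Equiv.apply_symm_apply] at h4
      rw [← h4, h2]
    · rintro ⟨x, hx, rfl⟩
      rw [mem_erase, mem_filter] at hx
      exact ⟨(hypo_ne hH v x).mpr hx.1, mem_univ _, (hqπ v x hx.1).trans hx.2.2⟩
  have hpq : ∀ v, q v = p v := by
    intro v
    by_contra hne
    obtain ⟨w, hw⟩ : ∃ w, p w ≠ p v := by
      obtain ⟨c, hc⟩ : ∃ c, c ≠ p v := by
        have : Nontrivial K := Fintype.one_lt_card_iff_nontrivial.mp (by omega)
        exact exists_ne (p v)
      obtain ⟨w, rfl⟩ := hsurj c
      exact ⟨w, hc⟩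
    have h1 := hsize v (p v)
    rw [erase_eq_of_notMem (show v ∉ univ.filter (fun x => q x = p v) from fun h =>
      hne (mem_filter.mp h).2), card_erase_of_mem (show v ∈ univ.filter (fun x => p x = p v) from
      mem_filter.mpr ⟨mem_univ _, rfl⟩)] at h1
    have h2 := hsize w (p v)
    rw [erase_eq_of_notMem (show w ∉ univ.filter (fun x => p x = p v) from fun h =>
      hw (mem_filter.mp h).2)] at h2
    have h3 : ((univ.filter (fun x => q x = p v)).erase w).card ≤
        (univ.filter (fun x => q x = p v)).card := card_le_card (erase_subset _ _)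
    have h4 : 0 < (univ.filter (fun x => p x = p v)).card :=
      card_pos.mpr ⟨v, mem_filter.mpr ⟨mem_univ _, rfl⟩⟩
    omega
  have hqp : q = p := funext hpq
  rw [hqp] at hqπ hHq
  -- the isomorphism
  have hav : ∀ a : K, ∃ v, p v ≠ a := by
    intro a
    obtain ⟨c, hc⟩ : ∃ c, c ≠ a := by
      have : Nontrivial K := Fintype.one_lt_card_iff_nontrivial.mp (by omega)
      exact exists_ne a
    obtain ⟨w, rfl⟩ := hsurj c
    exact ⟨w, hc⟩
  choose w hw using hav
  have hxw : ∀ x, x ≠ w (p x) := by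
    intro x h
    exact hw (p x) (congrArg p h).symm
  set σ : V → V := fun x => π (w (p x)) x with hσ
  have hpσ : ∀ x, p (σ x) = p x := fun x => hqπ (w (p x)) x (hxw x)
  have hσinj : Function.Injective σ := by
    intro x y hxy
    have h1 : p x = p y := by rw [← hpσ x, ← hpσ y, hxy]
    have h2 : π (w (p x)) x = π (w (p y)) y := hxy
    rw [h1] at h2
    exact (π (w (p y))).injective h2
  refine ⟨Equiv.ofBijective σ (Finite.injective_iff_bijective.mp hσinj), fun x y => ?_⟩
  show H.Adj (σ x) (σ y) ↔ G.Adj x y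
  by_cases hxy : p x = p y
  · have h1 : x ≠ w (p y) := by
      rw [← hxy]
      exact hxw x
    have h2 := hH.adj (w (p y)) x y h1 (hxw y)
    have h3 : σ x = π (w (p y)) x := by rw [hσ]; simp only [hxy]
    rw [h3]
    exact h2
  · have h1 : p (σ x) ≠ p (σ y) := by
      rw [hpσ, hpσ]
      exact hxy
    rw [hHq _ _ h1, hpσ, hpσ, hp x (mem_univ _) y (mem_univ _) hxy]

end

/-- the theorem for truncated clique lattices -/
theorem det_main {G : SimpleGraph V} {Q : SimpleGraph K} {p : V → K} (hp : Lb G univ p Q)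
    (hsurj : Function.Surjective p) (hk : 5 ≤ Fintype.card K)
    (hprime : ∀ D : Finset K, D.card ≤ 2 → PrQ Q D) (hrig : ∀ a, Rn Q a) :
    Reconstructible G ∧ Reconstructible Gᶜ :=
  rec_of G True (fun _ _ hH hN _ => hN (det_iso hH hp hsurj hk hprime hrig)) trivial

end Pool.Agent.R553.Sub
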