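import Pool.Agent.R553.Sub.Prob

/-!
# Substitutions in random graphs
-/

set_option autoImplicit false
set_option linter.unusedSectionVars false

namespace Pool.Agent.R553.Sub

open Finset Classical Filter Topology
open Pool.Agent.H234RC (Hypo NonIso Reconstructible NAut IsNA Rn)
open Pool.Agent.Y395.RW
open Pool.Agent.Y395.RS (gr gr_adj)

/-- the substitution of the graphs `M i` for the vertices `i` of `Q` -/
def sb {K : Type} {V : K → Type} (Q : SimpleGraph K) (M : ∀ i, SimpleGraph (V i)) :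
    SimpleGraph (Σ i, V i) where
  Adj x y := Q.Adj x.1 y.1 ∨ ∃ (i : K) (a b : V i), x = ⟨i, a⟩ ∧ y = ⟨i, b⟩ ∧ (M i).Adj a b
  symm := ⟨fun x y h => by
    rcases h with h | ⟨i, a, b, h1, h2, h3⟩
    · exact Or.inl h.symm
    · exact Or.inr ⟨i, b, a, h2, h1, h3.symm⟩⟩
  loopless := ⟨fun x h => by
    rcases h with h | ⟨i, a, b, h1, h2, h3⟩
    · exact Q.loopless.irrefl _ h
    · rw [h1, Sigma.mk.injEq] at h2
      have := eq_of_heq h2.2
      rw [this] at h3
      exact (M i).loopless.irrefl _ h3⟩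

/-- all substitutions are reconstructible -/
def GoodQ {K : Type} (Q : SimpleGraph K) : Prop :=
  ∀ (V : K → Type) [∀ i, Fintype (V i)] [∀ i, Nonempty (V i)] (M : ∀ i, SimpleGraph (V i)),
    Reconstructible (sb Q M) ∧ Reconstructible (sb Q M)ᶜ

variable {K : Type} [Fintype K]

theorem good_of (Q : SimpleGraph K) (hk : 5 ≤ Fintype.card K)
    (hprime : ∀ D : Finset K, D.card ≤ 2 → PrQ Q D) (hrig : ∀ a, Rn Q a) : GoodQ Q := by
  intro V _ _ M
  refine det_main (p := Sigma.fst) (Q := Q) ?_ ?_ hk hprime hrig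
  · intro x _ y _ hxy
    constructor
    · rintro (h | ⟨i, a, b, h1, h2, _⟩)
      · exact h
      · exact absurd (by rw [h1, h2]) hxy
    · intro h
      exact Or.inl h
  · intro i
    exact ⟨⟨i, Classical.arbitrary _⟩, rfl⟩

theorem asym (c : ℝ) (hc : 0 < c) : ∃ n₀ : ℕ, ∀ n : ℕ, n₀ ≤ n → 5 ≤ n ∧
    (n : ℝ) * Real.exp (-(c * ((n : ℝ) - 3) / 4)) ≤ 1 / 2 ∧
    (1 + (n : ℝ) ^ 2) * (4 * ((n : ℝ) * Real.exp (-(c * ((n : ℝ) - 3) / 4)))) ≤ 1 / n ∧
    72 * Real.log n + 1 ≤ ((n : ℝ) - 1) * c := by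
  have hcast : Tendsto (fun n : ℕ => (n : ℝ)) atTop atTop := tendsto_natCast_atTop_atTop
  have key : Tendsto (fun n : ℕ => (n : ℝ) ^ 4 * Real.exp (-(c / 4) * n)) atTop (𝓝 0) := by
    have h1 := Real.tendsto_pow_mul_exp_neg_atTop_nhds_zero 4
    have h2 : Tendsto (fun n : ℕ => (c / 4) * (n : ℝ)) atTop atTop :=
      hcast.const_mul_atTop (by positivity)
    have h3 := (h1.comp h2).const_mul ((c / 4)⁻¹ ^ 4)
    rw [mul_zero] at h3
    refine h3.congr fun n => ?_
    simp only [Function.comp_apply]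
    rw [mul_pow, ← mul_assoc, ← mul_assoc, ← mul_pow, inv_mul_cancel₀ (by positivity), one_pow,
      one_mul]
    congr 2
    ring
  have hE : 0 < Real.exp (3 * c / 4) := Real.exp_pos _
  have ev1 : ∀ᶠ n : ℕ in atTop, (n : ℝ) ^ 4 * Real.exp (-(c / 4) * n) <
      1 / (8 * Real.exp (3 * c / 4)) := key.eventually (gt_mem_nhds (by positivity))
  have ev2 : ∀ᶠ n : ℕ in atTop, 72 * Real.log n + 1 ≤ ((n : ℝ) - 1) * c := by
    have h1 := (Real.isLittleO_log_id_atTop.comp_tendsto hcast).bound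
      (show (0 : ℝ) < c / 144 by positivity)
    have h2 := hcast.eventually (eventually_ge_atTop (2 * (1 + c) / c))
    filter_upwards [h1, h2, eventually_ge_atTop 1] with n h1 h2 h3
    simp only [Function.comp_apply, Real.norm_eq_abs, id_eq] at h1
    have hn1 : (1 : ℝ) ≤ n := by exact_mod_cast h3
    rw [abs_of_nonneg (Real.log_nonneg hn1), abs_of_nonneg (by linarith)] at h1
    rw [div_le_iff₀ hc] at h2
    nlinarith
  obtain ⟨n₁, hn₁⟩ := (ev1.and (ev2.and (eventually_ge_atTop 5))).exists_forall_of_atTop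
  refine ⟨n₁, fun n hn => ?_⟩
  obtain ⟨h1, h2, h5⟩ := hn₁ n hn
  have hn5 : (5 : ℝ) ≤ n := by exact_mod_cast h5
  have hn0 : (0 : ℝ) < n := by linarith
  set w := Real.exp (-(c * ((n : ℝ) - 3) / 4)) with hw
  have hw0 : 0 < w := Real.exp_pos _
  have hwe : w = Real.exp (-(c / 4) * n) * Real.exp (3 * c / 4) := by
    rw [hw, ← Real.exp_add]
    congr 1
    ring
  have h6 : (n : ℝ) ^ 4 * w ≤ 1 / 8 := by
    rw [hwe]
    have h7 := mul_le_mul_of_nonneg_right h1.le hE.le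
    have h8 : 1 / (8 * Real.exp (3 * c / 4)) * Real.exp (3 * c / 4) = 1 / 8 := by
      field_simp
    rw [h8] at h7
    linarith
  refine ⟨h5, ?_, ?_, h2⟩
  · have h9 : (n : ℝ) * w ≤ (n : ℝ) ^ 4 * w := by
      apply mul_le_mul_of_nonneg_right _ hw0.le
      nlinarith [pow_pos hn0 3, pow_pos hn0 2, mul_pos hn0 hn0, sq_nonneg ((n : ℝ) ^ 2 - n)]
    linarith
  · rw [le_div_iff₀ hn0]
    have h9 : (1 + (n : ℝ) ^ 2) * (4 * ((n : ℝ) * w)) * n = (4 * ((1 + (n : ℝ) ^ 2) * n ^ 2)) * w := by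
      ring
    rw [h9]
    have h10 : 4 * ((1 + (n : ℝ) ^ 2) * n ^ 2) ≤ 8 * (n : ℝ) ^ 4 := by
      have : (1 : ℝ) ≤ (n : ℝ) ^ 2 := by nlinarith
      nlinarith [mul_nonneg (sq_nonneg (n : ℝ)) (sub_nonneg.mpr this)]
    have h11 := mul_le_mul_of_nonneg_right h10 hw0.le
    linarith

theorem main (ε : ℝ) (hε : 0 < ε) : ∃ n₀ : ℕ, ∀ (K : Type) [Fintype K] (p : Sym2 K → ℝ),
    n₀ ≤ Fintype.card K → (∀ e, ε ≤ p e ∧ p e ≤ 1 - ε) →
    ∑ Q ∈ univ.filter (fun Q : SimpleGraph K => ¬ GoodQ Q), prob p Q ≤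
      2 / (Fintype.card K : ℝ) := by
  obtain ⟨n₀, hn₀⟩ := asym (ε / 2) (by positivity)
  refine ⟨n₀, fun K _ p hK hp => ?_⟩
  obtain ⟨h5, hw, hb, hlog⟩ := hn₀ _ hK
  have h0 : ∀ e, 0 ≤ p e := fun e => hε.le.trans (hp e).1
  have h1 : ∀ e, p e ≤ 1 := fun e => by linarith [(hp e).2]
  have hpc : ∀ e, ε / 2 ≤ p e * (1 - p e) := by
    intro e
    obtain ⟨h2, h3⟩ := hp e
    rcases le_total (p e) (1 / 2) with h4 | h4
    · have : p e * (1 / 2) ≤ p e * (1 - p e) := mul_le_mul_of_nonneg_left (by linarith) (h0 e)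
      linarith
    · have : (1 / 2) * (1 - p e) ≤ p e * (1 - p e) :=
        mul_le_mul_of_nonneg_right h4 (by linarith [h1 e])
      linarith
  refine le_trans (le_of_eq (Eq.trans ?_ (sum_prob p (fun H => ¬ GoodQ H)))) ?_
  · refine sum_congr ?_ (fun _ _ => rfl)
    ext H
    constructor
    · intro h
      exact (@mem_filter _ _ (fun _ => propDecidable _) _ _).mpr ⟨mem_univ _,
        ((@mem_filter _ _ (fun _ => instDecidableNot) _ _).mp h).2⟩
    · intro h
      exact (@mem_filter _ _ (fun _ => instDecidableNot) _ _).mpr ⟨mem_univ _,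
        ((@mem_filter _ _ (fun _ => propDecidable _) _ _).mp h).2⟩
  have hY : ∀ x ∈ (univ : Finset K), 72 * Real.log (Fintype.card K) + 1 ≤
      ∑ z ∈ univ.erase x, p s(x, z) * (1 - p s(x, z)) := by
    intro x _
    refine hlog.trans ?_
    have h2 : ∑ z ∈ univ.erase x, (ε / 2) ≤ ∑ z ∈ univ.erase x, p s(x, z) * (1 - p s(x, z)) :=
      sum_le_sum (fun z _ => hpc _)
    rw [sum_const, card_erase_of_mem (mem_univ _), card_univ, nsmul_eq_mul,
      Nat.cast_sub (by omega)] at h2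
    simpa using h2
  calc pr p (pairs K) (fun F => ¬ GoodQ (gr F))
      ≤ pr p (pairs K) (fun F => (∃ y ∈ (univ : Finset K), ¬ Rn (gr F) y) ∨
          ∃ a ∈ idx K, BadP (gr F) a.1 a.2) := by
        apply pr_mono h0 h1
        intro F _ hF
        by_contra hcon
        push Not at hcon
        apply hF
        apply good_of _ h5
        · by_contra hne
          obtain ⟨a, ha, hbad⟩ := not_prq _ hne
          exact hcon.2 a ha hbad
        · intro y
          exact hcon.1 y (mem_univ _)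
    _ ≤ pr p (pairs K) (fun F => ∃ y ∈ (univ : Finset K), ¬ Rn (gr F) y) +
          pr p (pairs K) (fun F => ∃ a ∈ idx K, BadP (gr F) a.1 a.2) :=
        pr_or h0 h1 _ _ _
    _ ≤ 1 / (Fintype.card K : ℝ) + 1 / (Fintype.card K : ℝ) := by
        apply add_le_add
        · exact wcore p h0 h1 univ (by omega) hY
        · exact (pr_prime p (ε / 2) (by positivity) h0 h1 hpc (by omega) hw).trans hb
    _ = 2 / (Fintype.card K : ℝ) := by ring

end Pool.Agent.R553.Sub
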