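import Pool.Agent.R553.Sub.Det
import Pool.Agent.Y395.RW.Fin

/-!
# Random graphs are stably prime and rigid
-/

set_option autoImplicit false
set_option linter.unusedSectionVars false

namespace Pool.Agent.R553.Sub

open Finset Classical Filter Topology
open Pool.Agent.H234RC (Hypo NonIso Reconstructible NAut IsNA Rn)
open Pool.Agent.Y395.RW
open Pool.Agent.Y395.RS (gr gr_adj)

variable {K : Type} [Fintype K]

/-- a nontrivial module of `Q - D` -/
def BadP (Q : SimpleGraph K) (D S : Finset K) : Prop :=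
  ∀ z, z ∉ S → z ∉ D → ∀ x ∈ S, ∀ y ∈ S, (Q.Adj z x ↔ Q.Adj z y)

/-- the admissible pairs -/
noncomputable def idx (K : Type) [Fintype K] : Finset (Finset K × Finset K) :=
  univ.filter (fun a => a.1.card ≤ 2 ∧ Disjoint a.2 a.1 ∧ 2 ≤ a.2.card ∧ ∃ z, z ∉ a.2 ∧ z ∉ a.1)

theorem not_prq (Q : SimpleGraph K) (h : ¬ ∀ D : Finset K, D.card ≤ 2 → PrQ Q D) :
    ∃ a ∈ idx K, BadP Q a.1 a.2 := by
  push Not at h
  obtain ⟨D, hD, h⟩ := h
  unfold PrQ at h
  push Not at h
  obtain ⟨S, hS, hm, hc, z, hz1, hz2⟩ := h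
  have hc2 : 2 ≤ S.card := by omega
  exact ⟨(D, S), mem_filter.mpr ⟨mem_univ _, hD, hS, hc2, z, hz1, hz2⟩, hm⟩

/-- one module -/
theorem one_module (p : Sym2 K → ℝ) (c : ℝ) (h0 : ∀ e, 0 ≤ p e)
    (h1 : ∀ e, p e ≤ 1) (hpc : ∀ e, c ≤ p e * (1 - p e)) (D S : Finset K)
    (hDS : Disjoint S D) (hS : S.Nonempty) :
    pr p (pairs K) (fun F => BadP (gr F) D S) ≤
      Real.exp (-(c * ((S.card - 1 : ℕ) * ((S ∪ D)ᶜ.card : ℝ)))) := by
  obtain ⟨s0, hs0⟩ := hS
  set T := (S ∪ D)ᶜ with hT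
  have hTm : ∀ z, z ∈ T ↔ z ∉ S ∧ z ∉ D := by
    intro z
    rw [hT, mem_compl, mem_union, not_or]
  set I : Finset (Sym2 K) := (T ×ˢ S.erase s0).image (fun a => s(a.1, a.2)) with hI
  set f : Sym2 K → Sym2 K := Sym2.map (fun y => if y ∈ S then s0 else y) with hf
  have hfI : ∀ z ∈ T, ∀ x ∈ S, f s(z, x) = s(z, s0) := by
    intro z hz x hx
    rw [hf, Sym2.map_mk]
    simp only [if_neg ((hTm z).mp hz).1, if_pos hx]
  have hIE : I ⊆ pairs K := by
    intro e he
    obtain ⟨⟨z, x⟩, hzx, rfl⟩ := mem_image.mp he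
    rw [mem_product] at hzx
    rw [mem_pairs]
    intro heq
    have h2 : x ∈ S := mem_of_mem_erase hzx.2
    have h3 : z = x := heq
    rw [← h3] at h2
    exact ((hTm z).mp hzx.1).1 h2
  have hcI : I.card = (S.card - 1) * T.card := by
    rw [hI, card_image_of_injOn, card_product, card_erase_of_mem hs0, mul_comm]
    rintro ⟨z, x⟩ ha ⟨z', x'⟩ hb hab
    rw [mem_coe, mem_product] at ha hb
    simp only [Sym2.eq_iff] at hab
    rcases hab with ⟨e1, e2⟩ | ⟨e1, e2⟩
    · rw [e1, e2]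
    · exfalso
      apply ((hTm z).mp ha.1).1
      rw [e1]
      exact mem_of_mem_erase hb.2
  calc pr p (pairs K) (fun F => BadP (gr F) D S)
      ≤ pr p (pairs K) (fun F => ∀ a ∈ I, (a ∈ F ↔ f a ∈ F)) := by
        apply pr_mono h0 h1
        intro F hF hB a ha
        obtain ⟨⟨z, x⟩, hzx, rfl⟩ := mem_image.mp ha
        rw [mem_product] at hzx
        have hz := (hTm z).mp hzx.1
        have hx := mem_of_mem_erase hzx.2
        rw [hfI z hzx.1 x hx, ← adj_pairs hF, ← adj_pairs hF]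
        exact hB z hz.1 hz.2 x hx s0 hs0
    _ ≤ Real.exp (-(∑ e ∈ I, p e * (1 - p e))) := by
        apply pr_link h0 h1 (pairs K) I f hIE
        intro a ha hfa
        obtain ⟨⟨z, x⟩, hzx, rfl⟩ := mem_image.mp ha
        rw [mem_product] at hzx
        rw [hfI z hzx.1 x (mem_of_mem_erase hzx.2)] at hfa
        obtain ⟨⟨z', x'⟩, hzx', he⟩ := mem_image.mp hfa
        rw [mem_product] at hzx'
        simp only [Sym2.eq_iff] at he
        rcases he with ⟨_, e2⟩ | ⟨e1, _⟩
        · exact (mem_erase.mp hzx'.2).1 e2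
        · exact ((hTm _).mp hzx'.1).1 (e1 ▸ hs0)
    _ ≤ _ := by
        apply Real.exp_le_exp.mpr
        apply neg_le_neg
        have h2 : ∑ e ∈ I, c ≤ ∑ e ∈ I, p e * (1 - p e) := sum_le_sum (fun e _ => hpc e)
        rw [sum_const, hcI, nsmul_eq_mul] at h2
        push_cast at h2 ⊢
        linarith

/-- the sum over all sets -/
theorem sum_ne (w : ℝ) (hw : 0 ≤ w) (hn : (Fintype.card K : ℝ) * w ≤ 1 / 2) :
    ∑ X ∈ (univ : Finset (Finset K)).erase ∅, w ^ X.card ≤ 2 * ((Fintype.card K : ℝ) * w) := by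
  have h1 : ∑ X ∈ (univ : Finset K).powerset, w ^ X.card * (1 : ℝ) ^ ((univ : Finset K).card - X.card) =
      (w + 1) ^ (univ : Finset K).card := Finset.sum_pow_mul_eq_add_pow w 1 univ
  simp only [one_pow, mul_one, powerset_univ, card_univ] at h1
  have h2 := Finset.add_sum_erase (univ : Finset (Finset K)) (fun X => w ^ X.card)
    (mem_univ (∅ : Finset K))
  simp only [card_empty, pow_zero] at h2
  have h3 : (w + 1) ^ Fintype.card K ≤ Real.exp ((Fintype.card K : ℝ) * w) := by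
    rw [Real.exp_nat_mul]
    apply pow_le_pow_left₀ (by linarith)
    exact Real.add_one_le_exp w
  have h4 : Real.exp ((Fintype.card K : ℝ) * w) ≤ 1 + 2 * ((Fintype.card K : ℝ) * w) := by
    set x := (Fintype.card K : ℝ) * w with hx
    have hx0 : 0 ≤ x := by positivity
    have h5 := Real.one_sub_le_exp_neg x
    have h6 : Real.exp x * Real.exp (-x) = 1 := by
      rw [← Real.exp_add, add_neg_cancel, Real.exp_zero]
    have h7 : 0 < Real.exp x := Real.exp_pos x
    have h8 : Real.exp x * (1 - x) ≤ 1 :=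
      (mul_le_mul_of_nonneg_left h5 h7.le).trans h6.le
    have h9 : 1 ≤ (1 + 2 * x) * (1 - x) := by nlinarith
    have h10 : 0 < 1 - x := by linarith
    by_contra hcon
    push Not at hcon
    have h11 := mul_lt_mul_of_pos_right hcon h10
    linarith
  linarith

/-- the weight of a pair -/
theorem weight_le (c : ℝ) (hc : 0 ≤ c) (s t : ℕ) (N : ℝ) (hN : 0 ≤ N) (hs : 2 ≤ s) (ht : 1 ≤ t)
    (hst : N + 1 ≤ (s : ℝ) + t) :
    Real.exp (-(c * ((s - 1 : ℕ) * (t : ℝ)))) ≤
      Real.exp (-(c * N / 4)) ^ s + Real.exp (-(c * N / 4)) ^ t := by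
  have hs1 : ((s - 1 : ℕ) : ℝ) = (s : ℝ) - 1 := by
    rw [Nat.cast_sub (by omega)]
    simp
  have hs' : (2 : ℝ) ≤ s := by exact_mod_cast hs
  have ht' : (1 : ℝ) ≤ t := by exact_mod_cast ht
  rw [← Real.exp_nat_mul, ← Real.exp_nat_mul, hs1]
  rcases le_total ((s : ℝ) - 1) t with h | h
  · have h1 : N / 2 ≤ t := by linarith
    have h2 : (s : ℝ) * (N / 4) ≤ ((s : ℝ) - 1) * t := by
      have h3 : (s : ℝ) / 2 ≤ (s : ℝ) - 1 := by linarith
      calc (s : ℝ) * (N / 4) = ((s : ℝ) / 2) * (N / 2) := by ring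
        _ ≤ ((s : ℝ) - 1) * t := by
          apply mul_le_mul h3 h1 (by positivity) (by linarith)
    have h3 : Real.exp (-(c * (((s : ℝ) - 1) * t))) ≤ Real.exp ((s : ℝ) * -(c * N / 4)) := by
      apply Real.exp_le_exp.mpr
      have := mul_le_mul_of_nonneg_left h2 hc
      linarith
    have := Real.exp_pos ((t : ℝ) * -(c * N / 4))
    linarith
  · have h1 : N / 2 ≤ (s : ℝ) - 1 := by linarith
    have h2 : (t : ℝ) * (N / 4) ≤ ((s : ℝ) - 1) * t := by
      calc (t : ℝ) * (N / 4) = (N / 4) * t := by ring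
        _ ≤ ((s : ℝ) - 1) * t := by
          apply mul_le_mul_of_nonneg_right _ (by linarith)
          linarith
    have h3 : Real.exp (-(c * (((s : ℝ) - 1) * t))) ≤ Real.exp ((t : ℝ) * -(c * N / 4)) := by
      apply Real.exp_le_exp.mpr
      have := mul_le_mul_of_nonneg_left h2 hc
      linarith
    have := Real.exp_pos ((s : ℝ) * -(c * N / 4))
    linarith

theorem card_small : (univ.filter (fun D : Finset K => D.card ≤ 2)).card ≤
    1 + Fintype.card K ^ 2 := by
  have h : univ.filter (fun D : Finset K => D.card ≤ 2) ⊆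
      insert ∅ (univ.image (fun a : K × K => ({a.1, a.2} : Finset K))) := by
    intro D hD
    rw [mem_filter] at hD
    rw [mem_insert, mem_image]
    rcases Nat.lt_or_ge D.card 1 with h0 | h0
    · exact Or.inl (card_eq_zero.mp (by omega))
    · right
      rcases Nat.lt_or_ge D.card 2 with h2 | h2
      · obtain ⟨a, ha⟩ := card_eq_one.mp (show D.card = 1 by omega)
        exact ⟨(a, a), mem_univ _, by rw [ha]; simp⟩
      · obtain ⟨a, b, _, hab⟩ := card_eq_two.mp (show D.card = 2 by omega)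
        exact ⟨(a, b), mem_univ _, by rw [hab]⟩
  refine (card_le_card h).trans ((card_insert_le _ _).trans ?_)
  have h2 := card_image_le (s := (univ : Finset (K × K))) (f := fun a => ({a.1, a.2} : Finset K))
  rw [card_univ, Fintype.card_prod] at h2
  have : Fintype.card K ^ 2 = Fintype.card K * Fintype.card K := sq _
  omega

/-- primality -/
theorem pr_prime (p : Sym2 K → ℝ) (c : ℝ) (hc : 0 ≤ c) (h0 : ∀ e, 0 ≤ p e)
    (h1 : ∀ e, p e ≤ 1) (hpc : ∀ e, c ≤ p e * (1 - p e)) (h3 : 3 ≤ Fintype.card K)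
    (hw : (Fintype.card K : ℝ) * Real.exp (-(c * ((Fintype.card K : ℝ) - 3) / 4)) ≤ 1 / 2) :
    pr p (pairs K) (fun F => ∃ a ∈ idx K, BadP (gr F) a.1 a.2) ≤
      (1 + (Fintype.card K : ℝ) ^ 2) *
        (4 * ((Fintype.card K : ℝ) * Real.exp (-(c * ((Fintype.card K : ℝ) - 3) / 4)))) := by
  set n := Fintype.card K with hn
  have hn3 : (3 : ℝ) ≤ n := by exact_mod_cast h3
  set w := Real.exp (-(c * ((n : ℝ) - 3) / 4)) with hwdef
  have hw0 : 0 ≤ w := (Real.exp_pos _).le
  have hterm : ∀ a ∈ idx K, pr p (pairs K) (fun F => BadP (gr F) a.1 a.2) ≤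
      w ^ a.2.card + w ^ ((a.2 ∪ a.1)ᶜ.card) := by
    rintro ⟨D, S⟩ ha
    rw [idx, mem_filter] at ha
    obtain ⟨_, hD, hDS, hS, z, hz1, hz2⟩ := ha
    simp only at hD hDS hS hz1 hz2 ⊢
    refine (one_module p c h0 h1 hpc D S hDS (card_pos.mp (by omega))).trans ?_
    apply weight_le c hc _ _ ((n : ℝ) - 3) (by linarith) hS
    · exact card_pos.mpr ⟨z, by rw [mem_compl, mem_union, not_or]; exact ⟨hz1, hz2⟩⟩
    · have h4 : (S ∪ D)ᶜ.card + (S ∪ D).card = n := by
        rw [card_compl_add_card]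
      rw [card_union_of_disjoint hDS] at h4
      have h5 : ((S ∪ D)ᶜ.card : ℝ) + ((S.card : ℝ) + D.card) = n := by exact_mod_cast h4
      have h6 : (D.card : ℝ) ≤ 2 := by exact_mod_cast hD
      linarith
  have hB := sum_ne (K := K) w hw0 hw
  set B := ∑ X ∈ (univ : Finset (Finset K)).erase ∅, w ^ X.card with hBdef
  have hinner : ∀ D : Finset K, ∑ S ∈ univ.filter (fun S : Finset K => (D, S) ∈ idx K),
      (w ^ S.card + w ^ ((S ∪ D)ᶜ.card)) ≤ B + B := by
    intro D
    rw [sum_add_distrib]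
    have hmem : ∀ S ∈ univ.filter (fun S : Finset K => (D, S) ∈ idx K),
        Disjoint S D ∧ 2 ≤ S.card ∧ ∃ z, z ∉ S ∧ z ∉ D := by
      intro S hS
      rw [mem_filter, idx, mem_filter] at hS
      exact ⟨hS.2.2.2.1, hS.2.2.2.2.1, hS.2.2.2.2.2⟩
    apply add_le_add
    · apply sum_le_sum_of_subset_of_nonneg
      · intro S hS
        refine mem_erase.mpr ⟨?_, mem_univ _⟩
        rintro rfl
        have := (hmem _ hS).2.1
        simp at this
      · intro X _ _
        exact pow_nonneg hw0 _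
    · rw [← sum_image (s := univ.filter (fun S : Finset K => (D, S) ∈ idx K))
        (f := fun X : Finset K => w ^ X.card) (g := fun S => (S ∪ D)ᶜ)]
      · apply sum_le_sum_of_subset_of_nonneg
        · intro X hX
          obtain ⟨S, hS, rfl⟩ := mem_image.mp hX
          refine mem_erase.mpr ⟨?_, mem_univ _⟩
          obtain ⟨_, _, z, hz1, hz2⟩ := hmem _ hS
          intro he
          have : z ∈ (S ∪ D)ᶜ := by
            rw [mem_compl, mem_union, not_or]
            exact ⟨hz1, hz2⟩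
          rw [he] at this
          exact notMem_empty _ this
        · intro X _ _
          exact pow_nonneg hw0 _
      · intro S hS S' hS' he
        have h4 : S ∪ D = S' ∪ D := by
          have := congrArg (fun X : Finset K => Xᶜ) he
          simpa using this
        have d1 := (hmem S (mem_coe.mp hS)).1
        have d2 := (hmem S' (mem_coe.mp hS')).1
        have e1 : (S ∪ D) \ D = S := by
          rw [union_sdiff_right]
          exact sdiff_eq_self_of_disjoint d1
        have e2 : (S' ∪ D) \ D = S' := by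
          rw [union_sdiff_right]
          exact sdiff_eq_self_of_disjoint d2
        rw [← e1, ← e2, h4]
  have hsplit : ∑ a ∈ idx K, (w ^ a.2.card + w ^ ((a.2 ∪ a.1)ᶜ.card)) ≤
      ∑ D ∈ univ.filter (fun D : Finset K => D.card ≤ 2),
        ∑ S ∈ univ.filter (fun S : Finset K => (D, S) ∈ idx K),
          (w ^ S.card + w ^ ((S ∪ D)ᶜ.card)) := by
    rw [← sum_fiberwise_of_maps_to (s := idx K)
      (t := univ.filter (fun D : Finset K => D.card ≤ 2)) (g := fun a => a.1)]
    · apply sum_le_sum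
      intro D _
      apply le_of_eq
      apply sum_nbij (fun a => a.2)
      · rintro ⟨D', S⟩ ha
        rw [mem_filter] at ha
        obtain ⟨h4, rfl⟩ := ha
        exact mem_filter.mpr ⟨mem_univ _, h4⟩
      · rintro ⟨D', S⟩ ha ⟨D'', S'⟩ hb hab
        rw [mem_coe, mem_filter] at ha hb
        simp only at hab
        rw [Prod.mk.injEq]
        exact ⟨ha.2.trans hb.2.symm, hab⟩
      · intro S hS
        rw [mem_coe, mem_filter] at hS
        exact ⟨(D, S), mem_coe.mpr (mem_filter.mpr ⟨hS.2, rfl⟩), rfl⟩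
      · rintro ⟨D', S⟩ ha
        rw [mem_filter] at ha
        obtain ⟨_, rfl⟩ := ha
        rfl
    · rintro ⟨D, S⟩ ha
      rw [idx, mem_filter] at ha
      exact mem_filter.mpr ⟨mem_univ _, ha.2.1⟩
  calc pr p (pairs K) (fun F => ∃ a ∈ idx K, BadP (gr F) a.1 a.2)
      ≤ ∑ a ∈ idx K, pr p (pairs K) (fun F => BadP (gr F) a.1 a.2) :=
        pr_ex h0 h1 (pairs K) (idx K) (fun a F => BadP (gr F) a.1 a.2)
    _ ≤ ∑ a ∈ idx K, (w ^ a.2.card + w ^ ((a.2 ∪ a.1)ᶜ.card)) := sum_le_sum hterm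
    _ ≤ _ := hsplit
    _ ≤ ∑ D ∈ univ.filter (fun D : Finset K => D.card ≤ 2), (B + B) :=
        sum_le_sum (fun D _ => hinner D)
    _ = ((univ.filter (fun D : Finset K => D.card ≤ 2)).card : ℝ) * (B + B) := by
        rw [sum_const, nsmul_eq_mul]
    _ ≤ (1 + (n : ℝ) ^ 2) * (4 * ((n : ℝ) * w)) := by
        have h4 : ((univ.filter (fun D : Finset K => D.card ≤ 2)).card : ℝ) ≤ 1 + (n : ℝ) ^ 2 := by
          exact_mod_cast card_small (K := K)
        have h5 : 0 ≤ B := sum_nonneg (fun X _ => pow_nonneg hw0 _)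
        apply mul_le_mul h4 _ (by linarith) (by positivity)
        linarith

end Pool.Agent.R553.Sub
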